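import Pool.Agent.H97.VQ.TY

/-!
# MP_e21eee_nt, module MB: bound for the local masses
helper97
-/

set_option autoImplicit false

open Finset

namespace Pool.Agent.H97.VQ

open Pool.Agent.H11.CV Pool.Agent.H39.VQ

/-- sum of the nested sums of height `i` over the nodes in the class `ρ` of level `b` -/
noncomputable def HH {G : Type} (p k : ℕ) (lam : ℕ → ℝ) (w : ℕ → G → ℝ) (δ : ℕ → G → ℂ)
    (i b ρ : ℕ) (g : G) : ℂ :=
  ∑ z ∈ range (p ^ (lv k i - b)), hn p k lam w δ i (ρ + p ^ b * z) g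

/-- local mass at level `b`, height `i` -/
noncomputable def EE {G : Type} [AddCommGroup G] (p L k : ℕ) (u0 u1 u2 : G) (lam : ℕ → ℝ)
    (w : ℕ → G → ℝ) (δ : ℕ → G → ℂ) (j l c i b : ℕ) (g : G) : ℝ :=
  AA p L j l u0 u1 u2 (c : ℤ)
    (fun g => ∑ x ∈ range (p ^ (b - l)), ‖HH p k lam w δ i b (c + p ^ l * x) g‖ ^ 2) g

lemma rs_split {p : ℕ} (hp : 1 < p) {E : Type} [AddCommMonoid E] {a b c : ℕ} (hab : a ≤ b) (hbc : b ≤ c)
    (ρ : ℕ) (F : ℕ → E) :
    ∑ z ∈ range (p ^ (c - a)), F (ρ + p ^ a * z) =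
      ∑ y ∈ range (p ^ (b - a)), ∑ z ∈ range (p ^ (c - b)), F (ρ + p ^ a * y + p ^ b * z) := by
  have h := (Pool.Agent.H36.CV.rs p (b - a) (c - b) hp).1 E (fun t => F (ρ + p ^ a * t))
  have e : b - a + (c - b) = c - a := by omega
  rw [e] at h
  rw [h]
  refine sum_congr rfl (fun y _ => sum_congr rfl (fun z _ => ?_))
  have e2 : p ^ b = p ^ a * p ^ (b - a) := by
    rw [← pow_add, Nat.add_sub_cancel' hab]
  rw [e2]
  congr 1
  ring

lemma node_lt' {p a b ξ z : ℕ} (hp : 1 < p) (hab : a ≤ b) (hξ : ξ < p ^ a) (hz : z < p ^ (b - a)) :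
    ξ + p ^ a * z < p ^ b := by
  have h := (Pool.Agent.H36.CV.rs p a (b - a) hp).2.1 ξ z hξ hz
  rwa [Nat.add_sub_cancel' hab] at h

section
variable {p L k : ℕ} {ε : ℤ} {G : Type} [AddCommGroup G] [Fintype G] {u0 u1 u2 : G}
  {w : ℕ → G → ℝ} {δ : ℕ → G → ℂ} {lam : ℕ → ℝ}

lemma Kc_HH (hKM : V_KM) (hTY : V_TY) (hS : Sys p L k u0 u1 u2 ε w δ) (hlam : ∀ m, 0 < lam m)
    {i b ρ : ℕ} (hb : b ≤ lv k i) (hρ : ρ < p ^ b) :
    Kc p L b u0 u1 u2 ε (ρ : ℤ) (HH p k lam w δ i b ρ) := by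
  have hp : 1 < p := hS.prime.one_lt
  obtain ⟨km1, km2, km3, -⟩ := hKM p L G u0 u1 u2 hp hS.one_le
  obtain ⟨tA, -, -⟩ := hTY p L k ε G u0 u1 u2 w δ lam hS hlam
  refine km3 b ε ρ _ (fun z => hn p k lam w δ i (ρ + p ^ b * z)) ?_
  intro z hz
  refine km1 (lv k i) b _ _ _ _ ((Nat.mul_le_mul_left 2 (lv_le k i)).trans hS.two_le) hb ?_
    (tA i _ (node_lt' hp hb hρ (mem_range.1 hz))).2.1
  push_cast
  exact ⟨-z, by ring⟩

lemma move1 (hKM : V_KM) (hAV : V_AV) (hLO : V_LO) (hTY : V_TY) (hS : Sys p L k u0 u1 u2 ε w δ)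
    (hlam : ∀ m, 0 < lam m) {j l c i b0 b1 : ℕ} (hj : j ≤ k) (hlj : l ≤ j) (hc : c < p ^ l)
    (hl : l ≤ b0) (hb : b0 ≤ b1) (hb1 : b1 ≤ 2 * j - l) (hbi : b1 ≤ lv k i) (g : G) :
    EE p L k u0 u1 u2 lam w δ j l c i b0 g = EE p L k u0 u1 u2 lam w δ j l c i b1 g := by
  have hp : 1 < p := hS.prime.one_lt
  obtain ⟨av1, av2, av3, av4, av5, av6⟩ := hAV p L j l (c : ℤ) G u0 u1 u2 hp
  have hks := hS.two_le
  have hik := lv_le k i
  unfold EE
  rw [av5 ℝ (range (p ^ (b0 - l))) (fun x g => ‖HH p k lam w δ i b0 (c + p ^ l * x) g‖ ^ 2) g]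
  have e1 : (fun g => ∑ x ∈ range (p ^ (b1 - l)), ‖HH p k lam w δ i b1 (c + p ^ l * x) g‖ ^ 2)
      = (fun g => ∑ x ∈ range (p ^ (b0 - l)), ∑ y ∈ range (p ^ (b1 - b0)),
        ‖HH p k lam w δ i b1 (c + p ^ l * x + p ^ b0 * y) g‖ ^ 2) := by
    funext g
    exact rs_split hp hl hb c (fun ρ => ‖HH p k lam w δ i b1 ρ g‖ ^ 2)
  rw [e1, av5 ℝ (range (p ^ (b0 - l))) (fun x g => ∑ y ∈ range (p ^ (b1 - b0)),
        ‖HH p k lam w δ i b1 (c + p ^ l * x + p ^ b0 * y) g‖ ^ 2) g]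
  refine sum_congr rfl (fun x hx => ?_)
  have hcx : c + p ^ l * x < p ^ b0 := node_lt' hp hl hc (mem_range.1 hx)
  have hinj : Set.InjOn (fun y => c + p ^ l * x + p ^ b0 * y) (range (p ^ (b1 - b0)) : Set ℕ) := by
    intro y _ y' _ h
    simp only [add_right_inj] at h
    exact Nat.eq_of_mul_eq_mul_left (pow_pos (by omega) _) h
  set S : Finset ℕ := (range (p ^ (b1 - b0))).image (fun y => c + p ^ l * x + p ^ b0 * y) with hSdef
  have hSlt : ∀ s ∈ S, s < p ^ b1 := by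
    intro s hs
    obtain ⟨y, hy, rfl⟩ := mem_image.1 hs
    exact node_lt' hp hb hcx (mem_range.1 hy)
  have hlo := hLO p L j l b1 ε (c : ℤ) S G u0 u1 u2 (HH p k lam w δ i b1) hS.prime hS.one_le
    (by omega) (by omega) hlj hb1 hS.unit
    (fun s hs => Kc_HH hKM hTY hS hlam hbi (hSlt s hs))
    (by
      intro s hs
      obtain ⟨y, hy, rfl⟩ := mem_image.1 hs
      have : (p : ℤ) ^ b0 = (p : ℤ) ^ l * (p : ℤ) ^ (b0 - l) := by
        rw [← pow_add, Nat.add_sub_cancel' hl]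
      push_cast
      rw [this]
      exact ⟨x + (p : ℤ) ^ (b0 - l) * y, by ring⟩)
    (by
      intro s hs s' hs' hne hdvd
      exact hne ((Pool.Agent.H36.CV.rs p b1 0 hp).2.2.1 s s' (hSlt s hs) (hSlt s' hs') hdvd))
    g
  have e2 : (fun g => ‖∑ s ∈ S, HH p k lam w δ i b1 s g‖ ^ 2)
      = (fun g => ‖HH p k lam w δ i b0 (c + p ^ l * x) g‖ ^ 2) := by
    funext g
    rw [hSdef, sum_image hinj]
    congr 2
    unfold HH
    exact (rs_split hp hb hbi (c + p ^ l * x) (fun ρ => hn p k lam w δ i ρ g)).symm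
  have e3 : (fun g => ∑ s ∈ S, ‖HH p k lam w δ i b1 s g‖ ^ 2)
      = (fun g => ∑ y ∈ range (p ^ (b1 - b0)),
        ‖HH p k lam w δ i b1 (c + p ^ l * x + p ^ b0 * y) g‖ ^ 2) := by
    funext g
    rw [hSdef, sum_image hinj]
  rw [e2, e3] at hlo
  exact hlo

lemma move2 (hAV : V_AV) (hTY : V_TY) (hS : Sys p L k u0 u1 u2 ε w δ)
    (hlam : ∀ m, 0 < lam m) {j l c i : ℕ} (hc : c < p ^ l) (hl : l ≤ lv k (i + 1)) (g : G) :
    EE p L k u0 u1 u2 lam w δ j l c (i + 1) (lv k (i + 1)) g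
      ≤ EE p L k u0 u1 u2 lam w δ j l c i (lv k (i + 1)) g := by
  have hp : 1 < p := hS.prime.one_lt
  obtain ⟨av1, av2, av3, av4, av5, av6⟩ := hAV p L j l (c : ℤ) G u0 u1 u2 hp
  obtain ⟨tA, tB, tC⟩ := hTY p L k ε G u0 u1 u2 w δ lam hS hlam
  unfold EE
  refine av1 _ _ (fun g => ?_) g
  refine sum_le_sum (fun x hx => ?_)
  have hcx : c + p ^ l * x < p ^ (lv k (i + 1)) := node_lt' hp hl hc (mem_range.1 hx)
  refine pow_le_pow_left₀ (norm_nonneg _) ?_ 2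
  unfold HH
  simp only [Nat.sub_self, pow_zero, range_one, sum_singleton, mul_zero, add_zero]
  by_cases h0 : cn p k lam w (i + 1) (c + p ^ l * x) g = 0
  · rw [(tB i _ hcx g).2 h0, norm_zero]
    exact norm_nonneg _
  · rw [((tB i _ hcx g).1 h0).2]

lemma move3 (hAV : V_AV) (hTY : V_TY) (hS : Sys p L k u0 u1 u2 ε w δ)
    (hlam : ∀ m, 0 < lam m) {j l c i i' b : ℕ} (hlj : l ≤ j) (hc : c < p ^ l) (hl : l ≤ b)
    (hbj : b = 2 * j - l) (hbi : b ≤ lv k i) (hii : i' ≤ i) (g : G) :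
    EE p L k u0 u1 u2 lam w δ j l c i b g
      ≤ 4 * ((p : ℝ) ^ (lv k i' - j) * lam i') ^ 2 := by
  have hp : 1 < p := hS.prime.one_lt
  obtain ⟨av1, av2, av3, av4, av5, av6⟩ := hAV p L j l (c : ℤ) G u0 u1 u2 hp
  obtain ⟨tA, tB, tC⟩ := hTY p L k ε G u0 u1 u2 w δ lam hS hlam
  have hanti := lv_anti k hii
  unfold EE
  refine av2 _ _ (fun g => ?_) g
  have hH : ∀ x ∈ range (p ^ (b - l)), ‖HH p k lam w δ i b (c + p ^ l * x) g‖ ^ 2
      ≤ ((p : ℝ) ^ (lv k i' - b) * (2 * lam i')) ^ 2 := by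
    intro x hx
    have hcx : c + p ^ l * x < p ^ b := node_lt' hp hl hc (mem_range.1 hx)
    refine pow_le_pow_left₀ (norm_nonneg _) ?_ 2
    unfold HH
    refine (norm_sum_le _ _).trans ?_
    have h1 : ∑ z ∈ range (p ^ (lv k i - b)), ‖hn p k lam w δ i (c + p ^ l * x + p ^ b * z) g‖
        ≤ ∑ z ∈ range (p ^ (lv k i - b)), ∑ z' ∈ range (p ^ (lv k i' - lv k i)),
          cn p k lam w i' (c + p ^ l * x + p ^ b * z + p ^ (lv k i) * z') g := by
      refine sum_le_sum (fun z hz => ?_)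
      have hz' := node_lt' hp hbi hcx (mem_range.1 hz)
      exact (((tA i _ hz').1 g).2.1).trans (tC i' i _ hii hz' g)
    refine h1.trans ?_
    rw [← rs_split hp hbi hanti (c + p ^ l * x) (fun ρ => cn p k lam w i' ρ g)]
    calc ∑ z ∈ range (p ^ (lv k i' - b)), cn p k lam w i' (c + p ^ l * x + p ^ b * z) g
        ≤ ∑ z ∈ range (p ^ (lv k i' - b)), 2 * lam i' :=
          sum_le_sum (fun z hz => ((tA i' _ (node_lt' hp (hbi.trans hanti) hcx (mem_range.1 hz))).1 g).2.2.1.le)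
      _ = (p : ℝ) ^ (lv k i' - b) * (2 * lam i') := by
          rw [sum_const, card_range, nsmul_eq_mul]
          push_cast
          ring
  refine (sum_le_sum hH).trans (le_of_eq ?_)
  rw [sum_const, card_range, nsmul_eq_mul]
  push_cast
  have e : (p : ℝ) ^ (b - l) * ((p : ℝ) ^ (lv k i' - b)) ^ 2 = ((p : ℝ) ^ (lv k i' - j)) ^ 2 := by
    rw [← pow_mul, ← pow_mul, ← pow_add]
    congr 1
    omega
  calc (p : ℝ) ^ (b - l) * ((p : ℝ) ^ (lv k i' - b) * (2 * lam i')) ^ 2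
      = 4 * ((p : ℝ) ^ (b - l) * ((p : ℝ) ^ (lv k i' - b)) ^ 2 * lam i' ^ 2) := by ring
    _ = 4 * (((p : ℝ) ^ (lv k i' - j)) ^ 2 * lam i' ^ 2) := by rw [e]
    _ = 4 * ((p : ℝ) ^ (lv k i' - j) * lam i') ^ 2 := by ring

end

theorem pf_MB (hKM : V_KM) (hAV : V_AV) (hLO : V_LO) (hTY : V_TY) (hLV : V_LV) : V_MB := by
  intro p L k ε G _ _ u0 u1 u2 w δ lam m l c hS hlam hm hal hlj hc g
  have hp : 1 < p := hS.prime.one_lt
  obtain ⟨-, -, -, -, lv5, -⟩ := hLV k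
  have h5 := lv5 m hm
  set j := lv k m with hj
  have hjk : j ≤ k := lv_le k m
  have key : ∀ i, m - 2 ≤ i → i ≤ m → lv k i ≤ 2 * j - l →
      EE p L k u0 u1 u2 lam w δ j l c i (lv k i) g
        ≤ 4 * ((p : ℝ) ^ (lv k (m - 2) - j) * lam (m - 2)) ^ 2 := by
    intro i hi
    induction i, hi using Nat.le_induction with
    | base =>
      intro him hib
      have hjb : j ≤ lv k (m - 2) := lv_anti k (by omega)
      exact move3 hAV hTY hS hlam hlj hc (by omega) (by omega) le_rfl le_rfl g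
    | succ i hi ih =>
      intro him hib
      have hji : j ≤ lv k (i + 1) := lv_anti k him
      have hanti : lv k (i + 1) ≤ lv k i := lv_anti k (Nat.le_succ i)
      refine (move2 hAV hTY hS hlam hc (by omega) g).trans ?_
      by_cases hcase : lv k i ≤ 2 * j - l
      · rw [move1 hKM hAV hLO hTY hS hlam hjk hlj hc (by omega) hanti hcase le_rfl g]
        exact ih (by omega) hcase
      · rw [move1 hKM hAV hLO hTY hS hlam hjk hlj hc (by omega) hib le_rfl (by omega) g]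
        exact move3 hAV hTY hS hlam hlj hc (by omega) rfl (by omega) hi g
  have h := key m (Nat.sub_le _ _) le_rfl (by omega)
  unfold EE HH at h
  simp only [← hj, Nat.sub_self, pow_zero, range_one, sum_singleton, mul_zero, add_zero] at h
  exact h

end Pool.Agent.H97.VQ
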