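import Pool.Agent.H97.VQ.MB

/-!
# MP_e21eee_nt, module ST: one step
helper97
-/

set_option autoImplicit false

open Finset

namespace Pool.Agent.H97.VQ

open Pool.Agent.H11.CV Pool.Agent.H39.VQ

open Classical in
/-- the nested sums of the coherent nodes of height `m` over the class `ξ` of level `a` -/
noncomputable def ff {G : Type} (p k : ℕ) (lam : ℕ → ℝ) (w : ℕ → G → ℝ) (δ : ℕ → G → ℂ)
    (m a ξ : ℕ) (θ : ℝ) (s : ℕ) (g : G) : ℂ :=
  if s % p ^ a = ξ ∧ g ∈ Oh p k lam w δ m s θ then hn p k lam w δ m s g else 0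

section
variable {p L k : ℕ} {ε : ℤ} {G : Type} [AddCommGroup G] [Fintype G] {u0 u1 u2 : G}
  {w : ℕ → G → ℝ} {δ : ℕ → G → ℂ} {lam : ℕ → ℝ}

lemma Kc_ff (hKM : V_KM) (hTY : V_TY) (hS : Sys p L k u0 u1 u2 ε w δ) (hlam : ∀ m, 0 < lam m)
    {m a ξ s : ℕ} {θ : ℝ} (hs : s < p ^ (lv k m)) :
    Kc p L (lv k m) u0 u1 u2 ε (s : ℤ) (ff p k lam w δ m a ξ θ s) := by
  have hp : 1 < p := hS.prime.one_lt
  obtain ⟨km1, km2, km3, km4, km5, km6, km7⟩ := hKM p L G u0 u1 u2 hp hS.one_le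
  obtain ⟨tA, -, -⟩ := hTY p L k ε G u0 u1 u2 w δ lam hS hlam
  obtain ⟨-, hK, hI⟩ := tA m s hs
  classical
  by_cases hc : s % p ^ a = ξ
  · have hind : Iv p L (lv k m) u0 u1 u2 (s : ℤ) (fun g =>
        if cn p k lam w m s g ≠ 0 ∧ θ * cn p k lam w m s g ≤ ‖hn p k lam w δ m s g‖ then (1 : ℝ) else 0) :=
      km7 (lv k m) s (fun a b => if a ≠ 0 ∧ θ * a ≤ b then (1 : ℝ) else 0) _ _ hI
        (km6 (lv k m) ε s _ hK)
    have hk := km5 (lv k m) ε s _ _ hind hK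
    have e : ff p k lam w δ m a ξ θ s = fun g =>
        (((if cn p k lam w m s g ≠ 0 ∧ θ * cn p k lam w m s g ≤ ‖hn p k lam w δ m s g‖
          then (1 : ℝ) else 0) : ℝ) : ℂ) * hn p k lam w δ m s g := by
      funext g
      have hOh : g ∈ Oh p k lam w δ m s θ ↔
          (cn p k lam w m s g ≠ 0 ∧ θ * cn p k lam w m s g ≤ ‖hn p k lam w δ m s g‖) := Iff.rfl
      simp only [ff, hOh, hc, true_and]
      split_ifs <;> simp
    rw [e]
    exact hk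
  · have e : ff p k lam w δ m a ξ θ s = fun _ => 0 := by
      funext g
      simp [ff, hc]
    rw [e]
    refine ⟨fun g => by simp, fun g => rfl, fun g => rfl⟩

omit [AddCommGroup G] [Fintype G] in
lemma sum_ff {E : Type} [AddCommMonoid E] (hp : 1 < p) {m a ξ : ℕ} {θ : ℝ} (ha : a ≤ lv k m)
    (hξ : ξ < p ^ a) (g : G) (Φ : ℂ → E) (h0 : Φ 0 = 0) :
    ∑ s ∈ range (p ^ (lv k m)), Φ (ff p k lam w δ m a ξ θ s g)
      = ∑ z ∈ range (p ^ (lv k m - a)), Φ (ff p k lam w δ m a ξ θ (ξ + p ^ a * z) g) := by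
  have h := (Pool.Agent.H36.CV.rs p a (lv k m - a) hp).1 E (fun s => Φ (ff p k lam w δ m a ξ θ s g))
  rw [Nat.add_sub_cancel' ha] at h
  rw [h, sum_eq_single ξ]
  · intro x hx hne
    refine sum_eq_zero (fun z _ => ?_)
    have hx' : (x + p ^ a * z) % p ^ a = x := by
      rw [Nat.add_mul_mod_self_left, Nat.mod_eq_of_lt (mem_range.1 hx)]
    have : ff p k lam w δ m a ξ θ (x + p ^ a * z) g = 0 := by
      unfold ff
      rw [hx', if_neg]
      exact fun h => hne h.1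
    rw [this, h0]
  · intro hn
    exact absurd (mem_range.2 hξ) hn

end

theorem pf_ST (hSQ : V_SQ) (hWE : V_WE) (hTY : V_TY) (hMB : V_MB) (hKM : V_KM) (hAV : V_AV) : V_ST := by
  intro p L k ε G _ _ u0 u1 u2 w δ lam m ξ θ hS hlam hm hθ hξ
  classical
  have hp : 1 < p := hS.prime.one_lt
  obtain ⟨tA, tB, tC⟩ := hTY p L k ε G u0 u1 u2 w δ lam hS hlam
  set j := lv k m with hj
  set a := lv k (m + 1) with ha
  have haj : a ≤ j := lv_anti k (Nat.le_succ m)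
  have hjk : j ≤ k := lv_le k m
  have h2k := hS.two_le
  set f : ℕ → G → ℂ := ff p k lam w δ m a ξ (θ / 2) with hf
  have hfK : ∀ s : ℕ, s < p ^ j → Kc p L j u0 u1 u2 ε (s : ℤ) (f s) := fun s hs =>
    Kc_ff hKM hTY hS hlam hs
  have hmod : ∀ z : ℕ, (ξ + p ^ a * z) % p ^ a = ξ := fun z => by
    rw [Nat.add_mul_mod_self_left, Nat.mod_eq_of_lt hξ]
  have hfle : ∀ s g, ‖f s g‖ ≤ ‖hn p k lam w δ m s g‖ := by
    intro s g
    simp only [hf, ff]
    split_ifs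
    · exact le_rfl
    · rw [norm_zero]; exact norm_nonneg _
  -- lower bound on the coherent set
  have hlow : ∀ g ∈ Oh p k lam w δ (m + 1) ξ θ, θ / 2 * lam (m + 1) ≤ ‖∑ s ∈ range (p ^ j), f s g‖ := by
    intro g hg
    have hg1 : cn p k lam w (m + 1) ξ g ≠ 0 := hg.1
    have hg2 : θ * cn p k lam w (m + 1) ξ g ≤ ‖hn p k lam w δ (m + 1) ξ g‖ := hg.2
    obtain ⟨hc, hh⟩ := (tB m ξ hξ g).1 hg1
    have hlm := ((tA (m + 1) ξ hξ).1 g).2.2.2 hg1
    have hsum : ∑ s ∈ range (p ^ j), f s g = ∑ z ∈ range (p ^ (j - a)), f (ξ + p ^ a * z) g :=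
      sum_ff hp haj hξ g (fun z => z) rfl
    rw [hsum]
    have hdiff : ‖hn p k lam w δ (m + 1) ξ g - ∑ z ∈ range (p ^ (j - a)), f (ξ + p ^ a * z) g‖
        ≤ θ / 2 * cn p k lam w (m + 1) ξ g := by
      rw [hh, ← sum_sub_distrib, hc, mul_sum]
      refine (norm_sum_le _ _).trans (sum_le_sum (fun z hz => ?_))
      have hnode : ξ + p ^ a * z < p ^ j := node_lt' hp haj hξ (mem_range.1 hz)
      obtain ⟨hn0, hn1, -, -⟩ := (tA m _ hnode).1 g
      simp only [hf, ff, hmod, true_and]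
      split_ifs with hmem
      · rw [sub_self, norm_zero]
        positivity
      · rw [sub_zero]
        by_cases h0 : cn p k lam w m (ξ + p ^ a * z) g = 0
        · rw [h0] at hn1 ⊢
          simpa using hn1
        · by_contra hcon
          push Not at hcon
          exact hmem ⟨h0, hcon.le⟩
    have h3 := norm_sub_norm_le (hn p k lam w δ (m + 1) ξ g)
      (∑ z ∈ range (p ^ (j - a)), f (ξ + p ^ a * z) g)
    have h4 : θ / 2 * lam (m + 1) ≤ θ / 2 * cn p k lam w (m + 1) ξ g :=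
      mul_le_mul_of_nonneg_left hlm (by positivity)
    linarith
  have hcheb : (θ / 2 * lam (m + 1)) ^ 4 * cnt (Oh p k lam w δ (m + 1) ξ θ)
      ≤ ∑ g, ‖∑ s ∈ range (p ^ j), f s g‖ ^ 4 := by
    unfold cnt
    rw [mul_comm, ← nsmul_eq_mul, ← sum_const]
    refine (sum_le_sum (fun g hg => ?_)).trans
      (sum_le_sum_of_subset_of_nonneg (filter_subset _ _) (fun g _ _ => by positivity))
    exact pow_le_pow_left₀ (by have := hlam (m + 1); positivity) (hlow g (mem_filter.1 hg).2) 4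
  have hsq := hSQ p L j ε G u0 u1 u2 f hS.prime hS.odd hS.one_le (by omega) hS.unit hfK
  have hsqsum : ∀ g, ∑ s ∈ range (p ^ j), ‖f s g‖ ^ 2 = ∑ z ∈ range (p ^ (j - a)), ‖f (ξ + p ^ a * z) g‖ ^ 2 :=
    fun g => sum_ff hp haj hξ g (fun z => ‖z‖ ^ 2) (by simp)
  have hwe := hWE p L j a ξ ε G u0 u1 u2 f hS.prime hS.odd hS.one_le (by omega) haj hξ hfK
  set B : ℝ := 4 * ((p : ℝ) ^ (lv k (m - 2) - j) * lam (m - 2)) ^ 2 with hB
  have hB0 : 0 ≤ B := by positivity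
  -- total mass
  set Mass : ℝ := ∑ g, ∑ z ∈ range (p ^ (j - a)), ‖f (ξ + p ^ a * z) g‖ ^ 2 with hMass
  have hl : ∀ l ∈ Icc a j, ∑ y ∈ range (p ^ (l - a)), ∑ g,
          (AA p L j l u0 u1 u2 ((ξ + p ^ a * y : ℕ) : ℤ)
            (fun g => ∑ z ∈ range (p ^ (j - l)), ‖f (ξ + p ^ a * y + p ^ l * z) g‖ ^ 2) g) ^ 2
          ≤ B * Mass := by
    intro l hl
    obtain ⟨hl1, hl2⟩ := mem_Icc.1 hl
    have hy : ∀ y ∈ range (p ^ (l - a)), ∑ g,
          (AA p L j l u0 u1 u2 ((ξ + p ^ a * y : ℕ) : ℤ)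
            (fun g => ∑ z ∈ range (p ^ (j - l)), ‖f (ξ + p ^ a * y + p ^ l * z) g‖ ^ 2) g) ^ 2
          ≤ B * ∑ g, ∑ z ∈ range (p ^ (j - l)), ‖f (ξ + p ^ a * y + p ^ l * z) g‖ ^ 2 := by
      intro y hy
      have hcy : ξ + p ^ a * y < p ^ l := node_lt' hp hl1 hξ (mem_range.1 hy)
      obtain ⟨av1, av2, av3, av4, -, -⟩ := hAV p L j l ((ξ + p ^ a * y : ℕ) : ℤ) G u0 u1 u2 hp
      rw [← av4 _ (fun g => ∑ z ∈ range (p ^ (j - l)), ‖f (ξ + p ^ a * y + p ^ l * z) g‖ ^ 2), mul_sum]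
      refine sum_le_sum (fun g _ => ?_)
      have h0 := av3 (fun g => ∑ z ∈ range (p ^ (j - l)), ‖f (ξ + p ^ a * y + p ^ l * z) g‖ ^ 2)
        (fun g => sum_nonneg (fun z _ => by positivity)) g
      have h1 := av1 (fun g => ∑ z ∈ range (p ^ (j - l)), ‖f (ξ + p ^ a * y + p ^ l * z) g‖ ^ 2)
        (fun g => ∑ z ∈ range (p ^ (j - l)), ‖hn p k lam w δ m (ξ + p ^ a * y + p ^ l * z) g‖ ^ 2)
        (fun g => sum_le_sum (fun z _ => pow_le_pow_left₀ (norm_nonneg _) (hfle _ _) 2)) g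
      have h2 := hMB p L k ε G u0 u1 u2 w δ lam m l (ξ + p ^ a * y) hS hlam hm hl1 hl2 hcy g
      have h3 := h1.trans h2
      rw [_root_.sq]
      exact mul_le_mul_of_nonneg_right h3 h0
    refine (sum_le_sum hy).trans (le_of_eq ?_)
    rw [← mul_sum, sum_comm, hMass]
    congr 1
    refine sum_congr rfl (fun g _ => ?_)
    exact (rs_split hp hl1 hl2 ξ (fun ρ => ‖f ρ g‖ ^ 2)).symm
  have hMassle : Mass ≤ (2 * lam m) ^ 2 * ∑ z ∈ range (p ^ (j - a)),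
      cnt (Oh p k lam w δ m (ξ + p ^ a * z) (θ / 2)) := by
    rw [hMass, sum_comm, mul_sum]
    refine sum_le_sum (fun z hz => ?_)
    have hnode : ξ + p ^ a * z < p ^ j := node_lt' hp haj hξ (mem_range.1 hz)
    unfold cnt
    rw [mul_comm ((2 * lam m) ^ 2) _, ← nsmul_eq_mul, ← sum_const, sum_filter]
    refine sum_le_sum (fun g _ => ?_)
    simp only [hf, ff, hmod, true_and]
    split_ifs with hmem
    · obtain ⟨hn0, hn1, hn2, -⟩ := (tA m _ hnode).1 g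
      exact pow_le_pow_left₀ (norm_nonneg _) (hn1.trans hn2.le) 2
    · simp
  have hsumge : (0 : ℝ) ≤ ∑ z ∈ range (p ^ (j - a)), cnt (Oh p k lam w δ m (ξ + p ^ a * z) (θ / 2)) :=
    sum_nonneg (fun z _ => by unfold cnt; positivity)
  have hMass0 : 0 ≤ Mass := sum_nonneg (fun g _ => sum_nonneg (fun z _ => by positivity))
  have hW : ∑ g, (∑ z ∈ range (p ^ (j - a)), ‖f (ξ + p ^ a * z) g‖ ^ 2) ^ 2
      ≤ 2 * (((j - a + 1 : ℕ) : ℝ) * (B * Mass)) := by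
    refine hwe.trans (mul_le_mul_of_nonneg_left ?_ (by norm_num))
    refine (sum_le_sum hl).trans (le_of_eq ?_)
    rw [sum_const, Nat.card_Icc, nsmul_eq_mul]
    congr 2
    omega
  have hcard : (((j - a + 1 : ℕ) : ℝ)) ≤ (k : ℝ) + 1 := by
    have : j - a + 1 ≤ k + 1 := by omega
    exact_mod_cast this
  have hj1 : (1 + 2 * (j : ℝ)) ≤ 2 * ((k : ℝ) + 1) := by
    have : (j : ℝ) ≤ k := by exact_mod_cast hjk
    linarith
  have hfin : (θ / 2 * lam (m + 1)) ^ 4 * cnt (Oh p k lam w δ (m + 1) ξ θ)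
      ≤ (2 * ((k : ℝ) + 1)) * (2 * (((k : ℝ) + 1) * (B * ((2 * lam m) ^ 2 *
        ∑ z ∈ range (p ^ (j - a)), cnt (Oh p k lam w δ m (ξ + p ^ a * z) (θ / 2)))))) := by
    refine hcheb.trans (hsq.trans ?_)
    simp only [hsqsum]
    have h1 : 2 * (((j - a + 1 : ℕ) : ℝ) * (B * Mass)) ≤ 2 * (((k : ℝ) + 1) * (B * ((2 * lam m) ^ 2 *
        ∑ z ∈ range (p ^ (j - a)), cnt (Oh p k lam w δ m (ξ + p ^ a * z) (θ / 2))))) := by
      refine mul_le_mul_of_nonneg_left ?_ (by norm_num)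
      refine mul_le_mul hcard (mul_le_mul_of_nonneg_left hMassle hB0) (by positivity) (by positivity)
    exact mul_le_mul hj1 (hW.trans h1) (sum_nonneg (fun g _ => by positivity)) (by positivity)
  have hlm : 0 < lam m := hlam m
  have e1 : (2 * ((k : ℝ) + 1)) * (2 * (((k : ℝ) + 1) * (B * ((2 * lam m) ^ 2 *
        ∑ z ∈ range (p ^ (j - a)), cnt (Oh p k lam w δ m (ξ + p ^ a * z) (θ / 2))))))
      = (64 * ((k : ℝ) + 1) ^ 2) *
          ((p : ℝ) ^ (lv k (m - 2) - j) * lam (m - 2) / lam m) ^ 2 * lam m ^ 4 *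
          ∑ z ∈ range (p ^ (j - a)), cnt (Oh p k lam w δ m (ξ + p ^ a * z) (θ / 2)) := by
    rw [hB]
    field_simp
    ring
  rw [e1] at hfin
  have e2 : lam (m + 1) ^ 4 * cnt (Oh p k lam w δ (m + 1) ξ θ)
      = (2 / θ) ^ 4 * ((θ / 2 * lam (m + 1)) ^ 4 * cnt (Oh p k lam w δ (m + 1) ξ θ)) := by
    field_simp
  rw [e2]
  calc (2 / θ) ^ 4 * ((θ / 2 * lam (m + 1)) ^ 4 * cnt (Oh p k lam w δ (m + 1) ξ θ))
      ≤ (2 / θ) ^ 4 * ((64 * ((k : ℝ) + 1) ^ 2) *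
          ((p : ℝ) ^ (lv k (m - 2) - j) * lam (m - 2) / lam m) ^ 2 * lam m ^ 4 *
          ∑ z ∈ range (p ^ (j - a)), cnt (Oh p k lam w δ m (ξ + p ^ a * z) (θ / 2))) :=
        mul_le_mul_of_nonneg_left hfin (by positivity)
    _ = _ := by ring

end Pool.Agent.H97.VQ
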