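import Pool.Agent.H39.VQ.Targets
import Pool.Agent.H36.CV.RS

/-!
# MP_e21eee_nt, module TY: the nested families
helper97
-/

set_option autoImplicit false

open Finset

namespace Pool.Agent.H97.VQ

open Pool.Agent.H11.CV Pool.Agent.H39.VQ

lemma lv_anti (k : ℕ) {m m' : ℕ} (h : m ≤ m') : lv k m' ≤ lv k m := by
  unfold lv
  have := Nat.fib_mono (show m + 2 ≤ m' + 2 by omega)
  omega

lemma lv_le (k m : ℕ) : lv k m ≤ k := Nat.sub_le _ _

lemma node_lt {p k m ξ z : ℕ} (hp : 1 < p) (hξ : ξ < p ^ (lv k (m + 1)))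
    (hz : z < p ^ (lv k m - lv k (m + 1))) : ξ + p ^ (lv k (m + 1)) * z < p ^ (lv k m) := by
  have h := (Pool.Agent.H36.CV.rs p (lv k (m + 1)) (lv k m - lv k (m + 1)) hp).2.1 ξ z hξ hz
  rwa [Nat.add_sub_cancel' (lv_anti k (Nat.le_succ m))] at h

theorem pf_TY (hKM : V_KM) : V_TY := by
  intro p L k ε G _ u0 u1 u2 w δ lam hS hlam
  have hp : 1 < p := hS.prime.one_lt
  obtain ⟨km1, km2, km3, km4, km5, km6, km7⟩ := hKM p L G u0 u1 u2 hp hS.one_le
  have h2 : ∀ m, 2 * lv k m ≤ L := fun m => (Nat.mul_le_mul_left 2 (lv_le k m)).trans hS.two_le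
  have hA : ∀ m ξ : ℕ, ξ < p ^ (lv k m) →
      (∀ g, 0 ≤ cn p k lam w m ξ g ∧ ‖hn p k lam w δ m ξ g‖ ≤ cn p k lam w m ξ g ∧
        cn p k lam w m ξ g < 2 * lam m ∧
        (cn p k lam w m ξ g ≠ 0 → lam m ≤ cn p k lam w m ξ g)) ∧
      Kc p L (lv k m) u0 u1 u2 ε (ξ : ℤ) (hn p k lam w δ m ξ) ∧
      Iv p L (lv k m) u0 u1 u2 (ξ : ℤ) (cn p k lam w m ξ) := by
    intro m
    induction m with
    | zero =>
      intro ξ hξ
      have hlv0 : lv k 0 = k := by simp [lv]
      rw [hlv0] at hξ ⊢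
      have hw := hS.inv ξ hξ
      have hind : Iv p L k u0 u1 u2 (ξ : ℤ)
          (fun g => if lam 0 ≤ w ξ g ∧ w ξ g < 2 * lam 0 then (1 : ℝ) else 0) :=
        km7 k ξ (fun a _ => if lam 0 ≤ a ∧ a < 2 * lam 0 then (1 : ℝ) else 0) (w ξ) (w ξ) hw hw
      refine ⟨?_, ?_, ?_⟩
      · intro g
        have h0 := hS.nonneg ξ g hξ
        have h1 := hS.le ξ g hξ
        have h3 := hlam 0
        simp only [cn, hn]
        split_ifs with hc
        · exact ⟨h0, h1, hc.2, fun _ => hc.1⟩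
        · simp only [norm_zero, le_refl, true_and, ne_eq, not_true_eq_false, false_imp_iff, and_true]
          linarith
      · have hk := km5 k ε ξ _ _ hind (hS.cls ξ hξ)
        have e : hn p k lam w δ 0 ξ = fun g =>
            (((if lam 0 ≤ w ξ g ∧ w ξ g < 2 * lam 0 then (1 : ℝ) else 0) : ℝ) : ℂ) * δ ξ g := by
          funext g
          simp only [hn]
          split_ifs <;> simp
        rw [e]
        exact hk
      · exact km7 k ξ (fun a _ => if lam 0 ≤ a ∧ a < 2 * lam 0 then a else 0) (w ξ) (w ξ) hw hw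
    | succ m ih =>
      intro ξ hξ
      have hch : ∀ z ∈ range (p ^ (lv k m - lv k (m + 1))),
          ξ + p ^ (lv k (m + 1)) * z < p ^ (lv k m) := fun z hz => node_lt hp hξ (mem_range.1 hz)
      have hdvd : ∀ z : ℕ, (p : ℤ) ^ (lv k (m + 1)) ∣ (ξ : ℤ) - ((ξ + p ^ (lv k (m + 1)) * z : ℕ) : ℤ) := by
        intro z
        push_cast
        exact ⟨-z, by ring⟩
      have hcI : Iv p L (lv k (m + 1)) u0 u1 u2 (ξ : ℤ) (fun g => ∑ z ∈ range (p ^ (lv k m - lv k (m + 1))),
          cn p k lam w m (ξ + p ^ (lv k (m + 1)) * z) g) := by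
        refine km4 (lv k (m + 1)) ξ _ (fun z => cn p k lam w m (ξ + p ^ (lv k (m + 1)) * z)) ?_
        intro z hz
        exact km2 (lv k m) (lv k (m + 1)) _ _ _ (h2 m) (lv_anti k (Nat.le_succ m)) (hdvd z)
          (ih _ (hch z hz)).2.2
      have hhK : Kc p L (lv k (m + 1)) u0 u1 u2 ε (ξ : ℤ) (fun g => ∑ z ∈ range (p ^ (lv k m - lv k (m + 1))),
          hn p k lam w δ m (ξ + p ^ (lv k (m + 1)) * z) g) := by
        refine km3 (lv k (m + 1)) ε ξ _ (fun z => hn p k lam w δ m (ξ + p ^ (lv k (m + 1)) * z)) ?_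
        intro z hz
        exact km1 (lv k m) (lv k (m + 1)) _ _ _ _ (h2 m) (lv_anti k (Nat.le_succ m)) (hdvd z)
          (ih _ (hch z hz)).2.1
      set Sc : G → ℝ := fun g => ∑ z ∈ range (p ^ (lv k m - lv k (m + 1))),
          cn p k lam w m (ξ + p ^ (lv k (m + 1)) * z) g with hSc
      have hind : Iv p L (lv k (m + 1)) u0 u1 u2 (ξ : ℤ)
          (fun g => if lam (m + 1) ≤ Sc g ∧ Sc g < 2 * lam (m + 1) then (1 : ℝ) else 0) :=
        km7 _ ξ (fun a _ => if lam (m + 1) ≤ a ∧ a < 2 * lam (m + 1) then (1 : ℝ) else 0) Sc Sc hcI hcI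
      refine ⟨?_, ?_, ?_⟩
      · intro g
        have h0 : 0 ≤ Sc g := sum_nonneg (fun z hz => ((ih _ (hch z hz)).1 g).1)
        have h1 : ‖∑ z ∈ range (p ^ (lv k m - lv k (m + 1))),
            hn p k lam w δ m (ξ + p ^ (lv k (m + 1)) * z) g‖ ≤ Sc g :=
          (norm_sum_le _ _).trans (sum_le_sum (fun z hz => ((ih _ (hch z hz)).1 g).2.1))
        have h3 := hlam (m + 1)
        simp only [cn, hn]
        split_ifs with hc
        · exact ⟨h0, h1, hc.2, fun _ => hc.1⟩
        · simp only [norm_zero, le_refl, true_and, ne_eq, not_true_eq_false, false_imp_iff, and_true]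
          linarith
      · have hk := km5 _ ε ξ _ _ hind hhK
        have e : hn p k lam w δ (m + 1) ξ = fun g =>
            (((if lam (m + 1) ≤ Sc g ∧ Sc g < 2 * lam (m + 1) then (1 : ℝ) else 0) : ℝ) : ℂ) *
              (∑ z ∈ range (p ^ (lv k m - lv k (m + 1))),
                hn p k lam w δ m (ξ + p ^ (lv k (m + 1)) * z) g) := by
          funext g
          simp only [hn, hSc]
          split_ifs <;> simp
        rw [e]
        exact hk
      · exact km7 _ ξ (fun a _ => if lam (m + 1) ≤ a ∧ a < 2 * lam (m + 1) then a else 0) Sc Sc hcI hcI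
  refine ⟨hA, ?_, ?_⟩
  · intro m ξ hξ g
    refine ⟨?_, ?_⟩
    · intro hne
      by_cases hc : lam (m + 1) ≤ ∑ z ∈ range (p ^ (lv k m - lv k (m + 1))),
            cn p k lam w m (ξ + p ^ (lv k (m + 1)) * z) g ∧
          ∑ z ∈ range (p ^ (lv k m - lv k (m + 1))),
            cn p k lam w m (ξ + p ^ (lv k (m + 1)) * z) g < 2 * lam (m + 1)
      · simp only [cn, hn, if_pos hc]
        exact ⟨trivial, trivial⟩
      · exfalso
        apply hne
        simp only [cn, if_neg hc]
    · intro h0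
      have h1 := ((hA (m + 1) ξ hξ).1 g).2.1
      rw [h0] at h1
      exact norm_eq_zero.1 (le_antisymm h1 (norm_nonneg _))
  · intro m m' ξ hmm
    induction m', hmm using Nat.le_induction generalizing ξ with
    | base =>
      intro hξ g
      simp
    | succ m' hmm ih =>
      intro hξ g
      have hch : ∀ z ∈ range (p ^ (lv k m' - lv k (m' + 1))),
          ξ + p ^ (lv k (m' + 1)) * z < p ^ (lv k m') := fun z hz => node_lt hp hξ (mem_range.1 hz)
      have h0 : 0 ≤ ∑ z ∈ range (p ^ (lv k m' - lv k (m' + 1))),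
            cn p k lam w m' (ξ + p ^ (lv k (m' + 1)) * z) g :=
        sum_nonneg (fun z hz => ((hA m' _ (hch z hz)).1 g).1)
      have h1 : cn p k lam w (m' + 1) ξ g ≤ ∑ z ∈ range (p ^ (lv k m' - lv k (m' + 1))),
            cn p k lam w m' (ξ + p ^ (lv k (m' + 1)) * z) g := by
        simp only [cn]
        split_ifs with hc
        · exact le_rfl
        · exact h0
      refine h1.trans ((sum_le_sum (fun z hz => ih _ (hch z hz) g)).trans (le_of_eq ?_))
      have hle1 : lv k m' ≤ lv k m := lv_anti k hmm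
      have hle2 : lv k (m' + 1) ≤ lv k m' := lv_anti k (Nat.le_succ m')
      have hr := (Pool.Agent.H36.CV.rs p (lv k m' - lv k (m' + 1)) (lv k m - lv k m') hp).1 ℝ
        (fun t => cn p k lam w m (ξ + p ^ (lv k (m' + 1)) * t) g)
      have he : lv k m' - lv k (m' + 1) + (lv k m - lv k m') = lv k m - lv k (m' + 1) := by omega
      rw [he] at hr
      rw [hr]
      refine sum_congr rfl (fun z _ => sum_congr rfl (fun z' _ => ?_))
      have e2 : p ^ (lv k m') = p ^ (lv k (m' + 1)) * p ^ (lv k m' - lv k (m' + 1)) := by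
        rw [← pow_add]
        congr 1
        omega
      rw [e2]
      congr 1
      ring

end Pool.Agent.H97.VQ
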